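import Mathlib

/-!
# Hereditary radicals of torsion-free locally nilpotent groups

Let `X` be a hereditary radical and `G` a torsion-free locally nilpotent group.  If `g ^ n` lies in
`X(G)`, `n ≥ 1`, and the normal closure of `g ^ n` in `G` is nilpotent, then `g` lies in `X(G)`.
-/

set_option autoImplicit false

universe u

namespace Pool.Agent.Results.MP_f46629_al.NilpotentClosures

open Subgroup
open scoped commutatorElement

/-- A hereditary radical: a class `X` of groups closed under homomorphic images and under subgroups,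
such that a group generated by a set of normal subgroups belonging to `X` belongs to `X`. -/
structure IsHereditaryRadical (X : ∀ (G : Type u) [Group G], Prop) : Prop where
  image : ∀ (G H : Type u) [Group G] [Group H] (f : G →* H), Function.Surjective f → X G → X H
  subgroup : ∀ (G : Type u) [Group G] (H : Subgroup G), X G → X H
  join : ∀ (G : Type u) [Group G] (S : Set (Subgroup G)), (∀ N ∈ S, N.Normal ∧ X N) →
    sSup S = ⊤ → X G

/-- The `X`-radical `X(G)`: the subgroup generated by the normal subgroups of `G` in `X`. -/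
def rad (X : ∀ (G : Type u) [Group G], Prop) (G : Type u) [Group G] : Subgroup G :=
  sSup {N : Subgroup G | N.Normal ∧ X N}

/-- `G` is torsion-free: no element other than `1` has finite order. -/
def TorsionFree (G : Type u) [Group G] : Prop := ∀ (g : G) (n : ℕ), 0 < n → g ^ n = 1 → g = 1

/-- `G` is locally nilpotent: all finitely generated subgroups are nilpotent. -/
def LocallyNilpotent (G : Type u) [Group G] : Prop :=
  ∀ S : Finset G, Group.IsNilpotent (closure (S : Set G))

/-- uniqueness of roots -/
def UR (G : Type u) [Group G] : Prop := ∀ (x y : G) (n : ℕ), 0 < n → x ^ n = y ^ n → x = y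

/-! ### Roots -/

lemma pow_conj_of_comm {Q : Type u} [Group Q] {x y w : Q} (hw : x * y * x⁻¹ = w * y)
    (hc : x * w = w * x) (n : ℕ) : x ^ n * y * (x ^ n)⁻¹ = w ^ n * y := by
  induction n with
  | zero => simp
  | succ n ih =>
    have hcn : x * w ^ n = w ^ n * x := (Commute.pow_right (show Commute x w from hc) n).eq
    calc x ^ (n + 1) * y * (x ^ (n + 1))⁻¹ = x * (x ^ n * y * (x ^ n)⁻¹) * x⁻¹ := by
          rw [pow_succ']; group
      _ = x * (w ^ n * y) * x⁻¹ := by rw [ih]
      _ = (x * w ^ n) * y * x⁻¹ := by group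
      _ = w ^ n * (x * y * x⁻¹) := by rw [hcn]; group
      _ = w ^ (n + 1) * y := by rw [hw, pow_succ]; group

lemma mem_ucs_mk {N : Type u} [Group N] (i : ℕ) (z : N) :
    ((z : N ⧸ Subgroup.upperCentralSeries N i) = 1) ↔ z ∈ Subgroup.upperCentralSeries N i :=
  QuotientGroup.eq_one_iff z

/-- elements of `Z_{i+1}` are central modulo `Z_i` -/
lemma ucs_comm {N : Type u} [Group N] {i : ℕ} {z : N} (hz : z ∈ Subgroup.upperCentralSeries N (i + 1))
    (y : N) : (z : N ⧸ Subgroup.upperCentralSeries N i) * (y : N ⧸ Subgroup.upperCentralSeries N i) =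
      (y : N ⧸ Subgroup.upperCentralSeries N i) * (z : N ⧸ Subgroup.upperCentralSeries N i) := by
  have h := Subgroup.mem_upperCentralSeries_succ_iff.1 hz y
  have h1 : ((⁅z, y⁆ : N) : N ⧸ Subgroup.upperCentralSeries N i) = 1 := (mem_ucs_mk i _).2 h
  rw [commutatorElement_def] at h1
  simp only [QuotientGroup.mk_mul, QuotientGroup.mk_inv] at h1
  have := mul_inv_eq_one.1 h1
  exact mul_inv_eq_iff_eq_mul.1 this

lemma ucs_torsion {N : Type u} [Group N] (hT : TorsionFree N) (i : ℕ) :
    ∀ (x : N) (n : ℕ), 0 < n → x ∈ Subgroup.upperCentralSeries N (i + 1) →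
      x ^ n ∈ Subgroup.upperCentralSeries N i → x ∈ Subgroup.upperCentralSeries N i := by
  induction i with
  | zero =>
    intro x n hn _ hx
    simp only [Subgroup.upperCentralSeries_zero, mem_bot] at hx ⊢
    exact hT x n hn hx
  | succ i ih =>
    intro x n hn hx hxn
    rw [Subgroup.mem_upperCentralSeries_succ_iff] at hxn ⊢
    intro y
    have hw : ⁅x, y⁆ ∈ Subgroup.upperCentralSeries N (i + 1) := Subgroup.mem_upperCentralSeries_succ_iff.1 hx y
    refine ih _ n hn hw ?_
    have h1 := hxn y
    rw [← mem_ucs_mk] at h1 ⊢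
    have hc := ucs_comm hw x
    have hw' : (x : N ⧸ Subgroup.upperCentralSeries N i) * (y : N ⧸ Subgroup.upperCentralSeries N i) *
        (x : N ⧸ Subgroup.upperCentralSeries N i)⁻¹ = ((⁅x, y⁆ : N) : N ⧸ Subgroup.upperCentralSeries N i) *
        (y : N ⧸ Subgroup.upperCentralSeries N i) := by
      rw [commutatorElement_def]
      simp only [QuotientGroup.mk_mul, QuotientGroup.mk_inv]
      group
    have h2 := pow_conj_of_comm hw' hc.symm n
    have h3 : ((⁅x ^ n, y⁆ : N) : N ⧸ Subgroup.upperCentralSeries N i) =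
        ((⁅x, y⁆ : N) : N ⧸ Subgroup.upperCentralSeries N i) ^ n := by
      rw [commutatorElement_def]
      simp only [QuotientGroup.mk_mul, QuotientGroup.mk_inv, QuotientGroup.mk_pow]
      rw [h2]
      group
    rw [QuotientGroup.mk_pow, ← h3, h1]

lemma ur_of_nilpotent {N : Type u} [Group N] (hT : TorsionFree N) (hN : Group.IsNilpotent N) :
    UR N := by
  obtain ⟨c, hc⟩ := hN.nilpotent'
  intro x y n hn hxy
  have key : ∀ j i : ℕ, i + j = c → y⁻¹ * x ∈ Subgroup.upperCentralSeries N i := by
    intro j
    induction j with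
    | zero => intro i hi; rw [show i = c by omega, hc]; exact mem_top _
    | succ j ih =>
      intro i hi
      have hz := ih (i + 1) (by omega)
      refine ucs_torsion hT i _ n hn hz ?_
      rw [← mem_ucs_mk, QuotientGroup.mk_pow]
      have hcm : Commute (y : N ⧸ Subgroup.upperCentralSeries N i)
          ((y⁻¹ * x : N) : N ⧸ Subgroup.upperCentralSeries N i) := (ucs_comm hz y).symm
      have h1 := hcm.mul_pow n
      have h2 : (y : N ⧸ Subgroup.upperCentralSeries N i) * ((y⁻¹ * x : N) : N ⧸ Subgroup.upperCentralSeries N i) =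
          (x : N ⧸ Subgroup.upperCentralSeries N i) := by
        rw [← QuotientGroup.mk_mul]; congr 1; group
      rw [h2, ← QuotientGroup.mk_pow, ← QuotientGroup.mk_pow, hxy] at h1
      exact (left_eq_mul.1 h1)
  have h0 := key c 0 (by omega)
  rw [Subgroup.upperCentralSeries_zero, mem_bot] at h0
  exact (inv_mul_eq_one.1 h0).symm

lemma torsionFree_subgroup {G : Type u} [Group G] (hT : TorsionFree G) (H : Subgroup G) :
    TorsionFree H := by
  intro g n hn h
  have : (g : G) ^ n = 1 := by simpa using congrArg Subtype.val h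
  exact Subtype.ext (hT g n hn this)

lemma ur_of_ln {G : Type u} [Group G] (hT : TorsionFree G) (hL : LocallyNilpotent G) : UR G := by
  classical
  intro x y n hn hxy
  have hN := hL {x, y}
  have hx : x ∈ closure ((({x, y} : Finset G)) : Set G) := subset_closure (by simp)
  have hy : y ∈ closure ((({x, y} : Finset G)) : Set G) := subset_closure (by simp)
  have := ur_of_nilpotent (torsionFree_subgroup hT _) hN ⟨x, hx⟩ ⟨y, hy⟩ n hn
    (Subtype.ext (by simpa using hxy))
  simpa using congrArg Subtype.val this

lemma comm_of_pow_comm {G : Type u} [Group G] (hU : UR G) {x y : G} {n : ℕ} (hn : 0 < n)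
    (h : x ^ n * y = y * x ^ n) : x * y = y * x := by
  have h1 : (y * x * y⁻¹) ^ n = x ^ n := by
    rw [conj_pow, ← h]; group
  have h2 := hU _ _ n hn h1
  rw [mul_inv_eq_iff_eq_mul] at h2
  exact h2.symm

lemma ur_quotient {G : Type u} [Group G] (hU : UR G) : UR (G ⧸ center G) := by
  intro a b n hn hab
  induction a using QuotientGroup.induction_on with
  | H x =>
    induction b using QuotientGroup.induction_on with
    | H y =>
      rw [← QuotientGroup.mk_pow, ← QuotientGroup.mk_pow, QuotientGroup.eq] at hab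
      -- `z = (x ^ n)⁻¹ * y ^ n` is central
      rw [mem_center_iff] at hab
      have hxy : x ^ n * y ^ n = y ^ n * x ^ n := by
        have h1 := hab (x ^ n)
        have : x ^ n * ((x ^ n)⁻¹ * y ^ n) = (x ^ n)⁻¹ * y ^ n * x ^ n := h1
        rw [mul_inv_cancel_left] at this
        calc x ^ n * y ^ n = x ^ n * ((x ^ n)⁻¹ * y ^ n * x ^ n) := by rw [← this]
          _ = y ^ n * x ^ n := by group
      have hxy1 : x * y ^ n = y ^ n * x := comm_of_pow_comm hU hn hxy
      have hxy2 : x * y = y * x := (comm_of_pow_comm hU hn hxy1.symm).symm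
      have hz : (x⁻¹ * y) ^ n = (x ^ n)⁻¹ * y ^ n := by
        have : Commute x⁻¹ y := (Commute.inv_left (show Commute x y from hxy2))
        rw [this.mul_pow, inv_pow]
      rw [QuotientGroup.eq, mem_center_iff]
      intro t
      have h3 := hab t
      rw [← hz] at h3
      exact (comm_of_pow_comm hU hn h3.symm).symm

/-- If `H` has unique roots and is generated by elements with powers in a nilpotent subgroup `K`,
then `H` is nilpotent, of class at most that of `K`. -/
lemma nilp_of_pow (c : ℕ) : ∀ (H : Type u) [Group H], UR H → ∀ (K : Subgroup H),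
    Subgroup.upperCentralSeries K c = ⊤ → ∀ T : Set H, closure T = ⊤ →
    (∀ t ∈ T, ∃ n : ℕ, 0 < n ∧ t ^ n ∈ K) → Subgroup.upperCentralSeries H c = ⊤ := by
  induction c with
  | zero =>
    intro H _ hU K hK T hT hp
    rw [Subgroup.upperCentralSeries_zero] at hK ⊢
    have hK' : ∀ k ∈ K, k = 1 := by
      intro k hk
      have : (⟨k, hk⟩ : K) ∈ (⊥ : Subgroup K) := by rw [hK]; exact mem_top _
      simpa using this
    rw [← hT, eq_comm, closure_eq_bot_iff]
    intro t ht
    obtain ⟨n, hn, h⟩ := hp t ht
    exact hU t 1 n hn (by rw [hK' _ h, one_pow])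
  | succ c ih =>
    intro H _ hU K hK T hT hp
    -- `Z(K) ≤ Z(H)`
    have hZ : ∀ z : K, z ∈ Subgroup.upperCentralSeries K 1 → (z : H) ∈ center H := by
      intro z hz
      rw [Subgroup.upperCentralSeries_one, mem_center_iff] at hz
      have hle : closure T ≤ Subgroup.centralizer {(z : H)} := by
        rw [closure_le]
        intro t ht
        obtain ⟨n, hn, h⟩ := hp t ht
        have h1 := congrArg Subtype.val (hz ⟨t ^ n, h⟩)
        simp only [Subgroup.coe_mul] at h1
        have h2 := comm_of_pow_comm hU hn h1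
        simp only [SetLike.mem_coe, mem_centralizer_singleton_iff]
        exact h2
      rw [hT] at hle
      rw [mem_center_iff]
      intro g
      have := hle (mem_top g)
      rw [mem_centralizer_singleton_iff] at this
      exact this
    have hQ := ih (H ⧸ center H) (ur_quotient hU) (K.map (QuotientGroup.mk' (center H))) ?_
      ((QuotientGroup.mk' (center H)) '' T) ?_ ?_
    · rw [← Subgroup.comap_upperCentralSeries_quotient_center, hQ, comap_top]
    · -- the image of `K`
      set f := (QuotientGroup.mk' (center H)).subgroupMap K with hf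
      have hsurj : Function.Surjective f := MonoidHom.subgroupMap_surjective _ _
      have hstep : ∀ i : ℕ, ∀ x : K, x ∈ Subgroup.upperCentralSeries K (i + 1) →
          f x ∈ Subgroup.upperCentralSeries (K.map (QuotientGroup.mk' (center H))) i := by
        intro i
        induction i with
        | zero =>
          intro x hx
          rw [Subgroup.upperCentralSeries_zero, mem_bot]
          apply Subtype.ext
          simp only [hf, MonoidHom.subgroupMap_apply_coe, QuotientGroup.mk'_apply, OneMemClass.coe_one]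
          exact (QuotientGroup.eq_one_iff _).2 (hZ x hx)
        | succ i ihi =>
          intro x hx
          rw [Subgroup.mem_upperCentralSeries_succ_iff] at hx ⊢
          intro y
          obtain ⟨y', rfl⟩ := hsurj y
          have := ihi _ (hx y')
          rwa [map_commutatorElement] at this
      rw [eq_top_iff]
      intro y _
      obtain ⟨x, rfl⟩ := hsurj y
      exact hstep c x (by rw [hK]; exact mem_top _)
    · rw [← MonoidHom.map_closure, hT, ← MonoidHom.range_eq_map,
        MonoidHom.range_eq_top.2 (QuotientGroup.mk'_surjective _)]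
    · rintro _ ⟨t, ht, rfl⟩
      obtain ⟨n, hn, h⟩ := hp t ht
      exact ⟨n, hn, ⟨t ^ n, h, by simp⟩⟩

/-! ### Radicals -/

section radical

variable {X : ∀ (G : Type u) [Group G], Prop}

lemma x_equiv (hX : IsHereditaryRadical X) {G H : Type u} [Group G] [Group H] (e : G ≃* H)
    (h : X G) : X H :=
  hX.image G H e.toMonoidHom e.surjective h

lemma x_iSup (hX : IsHereditaryRadical X) {G : Type u} [Group G] {ι : Type u}
    (f : ι → Subgroup G) (hf : ∀ i, X (f i))
    (hn : ∀ i, ∀ n ∈ f i, ∀ k ∈ ⨆ i, f i, k * n * k⁻¹ ∈ f i) :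
    X (⨆ i, f i : Subgroup G) := by
  refine hX.join _ (Set.range fun i => (f i).subgroupOf (⨆ i, f i)) ?_ ?_
  · rintro _ ⟨i, rfl⟩
    refine ⟨?_, x_equiv hX (subgroupOfEquivOfLe (le_iSup f i)).symm (hf i)⟩
    rw [normal_subgroupOf_iff (le_iSup f i)]
    intro h k hh hk
    exact hn i h hh k hk
  · rw [sSup_range]
    apply Subgroup.map_injective (Subgroup.subtype_injective (⨆ i, f i))
    rw [Subgroup.map_iSup, ← MonoidHom.range_eq_map, Subgroup.range_subtype]
    refine iSup_congr fun i => ?_
    rw [subgroupOf_map_subtype, inf_eq_left]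
    exact le_iSup f i

lemma le_rad {G : Type u} [Group G] {N : Subgroup G} (hN : N.Normal) (h : X N) :
    N ≤ rad X G :=
  le_sSup ⟨hN, h⟩

lemma rad_eq {G : Type u} [Group G] :
    rad X G = ⨆ N : {N : Subgroup G // N.Normal ∧ X N}, (N : Subgroup G) :=
  sSup_eq_iSup' _

lemma x_rad (hX : IsHereditaryRadical X) {G : Type u} [Group G] : X (rad X G) := by
  rw [rad_eq]
  refine x_iSup hX (fun N : {N : Subgroup G // N.Normal ∧ X N} => (N : Subgroup G))
    (fun N => N.2.2) ?_
  intro N n hn k _
  exact N.2.1.conj_mem n hn k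

/-- subnormal subgroups in `X` lie in the radical -/
lemma subnormal_le_rad (hX : IsHereditaryRadical X) {G : Type u} [Group G] {K : Subgroup G}
    (hK : K.IsSubnormal) : ∀ A : Subgroup G, A ≤ K → (A.subgroupOf K).Normal → X A →
      A ≤ rad X G := by
  induction hK with
  | top =>
    intro A _ hA h
    refine le_rad ?_ h
    rw [normal_subgroupOf_iff le_top] at hA
    exact ⟨fun n hn g => hA n g hn (mem_top g)⟩
  | step K L hKL hL hN ih =>
    intro A hAK hA h
    rw [normal_subgroupOf_iff hAK] at hA
    rw [normal_subgroupOf_iff hKL] at hN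
    set f : L → Subgroup G := fun l => A.map (MulAut.conj (l : G)).toMonoidHom with hf
    have hmem : ∀ (l : L) (x : G), x ∈ f l ↔ ∃ a ∈ A, (l : G) * a * (l : G)⁻¹ = x := by
      intro l x
      simp [hf, Subgroup.mem_map]
    have hfK : ∀ l, f l ≤ K := by
      intro l x hx
      obtain ⟨a, ha, rfl⟩ := (hmem l x).1 hx
      exact hN a l (hAK ha) l.2
    have hBK : (⨆ l, f l) ≤ K := iSup_le hfK
    have hB : X (⨆ l, f l : Subgroup G) := by
      refine x_iSup hX f (fun l => ?_) ?_
      · exact x_equiv hX
          (Subgroup.equivMapOfInjective A _ (MulAut.conj (l : G)).injective) h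
      · intro l n hn k hk
        obtain ⟨a, ha, rfl⟩ := (hmem l n).1 hn
        rw [hmem]
        have hk' : (l : G)⁻¹ * k * (l : G) ∈ K := by
          have := hN k (l : G)⁻¹ (hBK hk) (inv_mem l.2)
          simpa using this
        refine ⟨((l : G)⁻¹ * k * (l : G)) * a * ((l : G)⁻¹ * k * (l : G))⁻¹,
          hA a _ ha hk', by group⟩
    have hBL : (⨆ l, f l) ≤ L := hBK.trans hKL
    have hBn : ((⨆ l, f l).subgroupOf L).Normal := by
      rw [normal_subgroupOf_iff hBL]
      intro x k hx hk
      have hle : (⨆ l, f l) ≤ (⨆ l, f l).comap (MulAut.conj k).toMonoidHom := by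
        refine iSup_le fun l => ?_
        intro y hy
        obtain ⟨a, ha, rfl⟩ := (hmem l y).1 hy
        rw [Subgroup.mem_comap]
        refine (le_iSup f ⟨k * l, mul_mem hk l.2⟩) ((hmem _ _).2 ⟨a, ha, ?_⟩)
        simp
        group
      have := hle hx
      simpa using this
    refine le_trans ?_ (ih _ hBL hBn hB)
    refine le_trans ?_ (le_iSup f 1)
    intro a ha
    exact (hmem 1 a).2 ⟨a, ha, by simp⟩

lemma subnormal_le_rad' (hX : IsHereditaryRadical X) {G : Type u} [Group G] {A : Subgroup G}
    (hA : A.IsSubnormal) (h : X A) : A ≤ rad X G := by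
  refine subnormal_le_rad hX hA A le_rfl ?_ h
  rw [normal_subgroupOf_iff le_rfl]
  intro a b ha hb
  exact mul_mem (mul_mem hb ha) (inv_mem hb)

/-- every subgroup of a nilpotent group is subnormal -/
lemma subnormal_of_nilpotent {N : Type u} [Group N] (hN : Group.IsNilpotent N) (H : Subgroup N) :
    H.IsSubnormal := by
  obtain ⟨c, hc⟩ := hN.nilpotent'
  have key : ∀ j i : ℕ, i + j = c → (H ⊔ Subgroup.upperCentralSeries N i).IsSubnormal := by
    intro j
    induction j with
    | zero =>
      intro i hi
      rw [show i = c by omega, hc, sup_top_eq]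
      exact IsSubnormal.top
    | succ j ih =>
      intro i hi
      have hle : H ⊔ Subgroup.upperCentralSeries N i ≤ H ⊔ Subgroup.upperCentralSeries N (i + 1) :=
        sup_le_sup_left (Subgroup.upperCentralSeries_mono N (Nat.le_succ i)) _
      refine IsSubnormal.step _ _ hle (ih (i + 1) (by omega)) ?_
      rw [normal_subgroupOf_iff_le_normalizer hle]
      refine sup_le (le_sup_left.trans le_normalizer) ?_
      intro z hz
      have hz' : ∀ x : N, x ∈ H ⊔ Subgroup.upperCentralSeries N i →
          z * x * z⁻¹ ∈ H ⊔ Subgroup.upperCentralSeries N i := by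
        intro x hx
        have h1 : ⁅z, x⁆ ∈ Subgroup.upperCentralSeries N i :=
          Subgroup.mem_upperCentralSeries_succ_iff.1 hz x
        have h2 := mul_mem ((le_sup_right : _ ≤ H ⊔ Subgroup.upperCentralSeries N i) h1) hx
        have h3 : ⁅z, x⁆ * x = z * x * z⁻¹ := by rw [commutatorElement_def]; group
        rwa [h3] at h2
      have hzi : z⁻¹ ∈ Subgroup.upperCentralSeries N (i + 1) := inv_mem hz
      rw [mem_normalizer_iff]
      intro x
      refine ⟨hz' x, fun h => ?_⟩
      have h1 : ⁅z⁻¹, z * x * z⁻¹⁆ ∈ Subgroup.upperCentralSeries N i :=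
        Subgroup.mem_upperCentralSeries_succ_iff.1 hzi _
      have h2 := mul_mem ((le_sup_right : _ ≤ H ⊔ Subgroup.upperCentralSeries N i) h1) h
      have h3 : ⁅z⁻¹, z * x * z⁻¹⁆ * (z * x * z⁻¹) = x := by rw [commutatorElement_def]; group
      rwa [h3] at h2
  have := key c 0 (by omega)
  rwa [Subgroup.upperCentralSeries_zero, sup_bot_eq] at this

/-- if `X` contains an infinite cyclic group, it contains all cyclic groups -/
lemma x_cyclic (hX : IsHereditaryRadical X) {G H : Type u} [Group G] [Group H] {r : G}
    (hr : ¬ IsOfFinOrder r) (h : X (zpowers r)) (g : H) : X (zpowers g) := by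
  set φ : Multiplicative ℤ →* zpowers r := zpowersHom _ ⟨r, mem_zpowers r⟩ with hφ
  have hφv : ∀ k : Multiplicative ℤ, ((φ k : zpowers r) : G) = r ^ (Multiplicative.toAdd k) := by
    intro k; simp [hφ, zpowersHom_apply]
  have hinj : Function.Injective φ := by
    intro a b hab
    have h1 := congrArg (Subtype.val) hab
    rw [hφv, hφv] at h1
    exact Multiplicative.toAdd.injective (injective_zpow_iff_not_isOfFinOrder.2 hr h1)
  have hsur : Function.Surjective φ := by
    rintro ⟨x, k, hk⟩
    refine ⟨Multiplicative.ofAdd k, Subtype.ext ?_⟩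
    rw [hφv]; exact hk
  set e := MulEquiv.ofBijective φ ⟨hinj, hsur⟩
  set ψ : Multiplicative ℤ →* zpowers g := zpowersHom _ ⟨g, mem_zpowers g⟩ with hψ
  have hψv : ∀ k : Multiplicative ℤ, ((ψ k : zpowers g) : H) = g ^ (Multiplicative.toAdd k) := by
    intro k; simp [hψ, zpowersHom_apply]
  refine hX.image (zpowers r) (zpowers g) (ψ.comp e.symm.toMonoidHom) ?_ h
  rintro ⟨x, k, hk⟩
  refine ⟨e (Multiplicative.ofAdd k), Subtype.ext ?_⟩
  have : (ψ.comp e.symm.toMonoidHom) (e (Multiplicative.ofAdd k)) = ψ (Multiplicative.ofAdd k) := by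
    simp
  rw [this, hψv]
  exact hk

lemma x_nilpotent (hX : IsHereditaryRadical X) {N : Type u} [Group N]
    (hN : Group.IsNilpotent N) (h : ∀ g : N, X (zpowers g)) : X N := by
  have h1 : rad X N = ⊤ := by
    rw [eq_top_iff]
    intro g _
    exact subnormal_le_rad' hX (subnormal_of_nilpotent hN (zpowers g)) (h g) (mem_zpowers g)
  have h2 : X (rad X N) := x_rad hX
  rw [h1] at h2
  exact x_equiv hX Subgroup.topEquiv h2

end radical

theorem main (X : ∀ (G : Type u) [Group G], Prop) (hX : IsHereditaryRadical X)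
    (G : Type u) [Group G] (hT : TorsionFree G) (hL : LocallyNilpotent G)
    (g : G) (n : ℕ) (hn : 0 < n) (hg : g ^ n ∈ rad X G)
    (hK : Group.IsNilpotent (normalClosure ({g ^ n} : Set G))) : g ∈ rad X G := by
  by_cases h1 : g = 1
  · rw [h1]; exact one_mem _
  have hU := ur_of_ln hT hL
  have hr1 : g ^ n ≠ 1 := fun h => h1 (hT g n hn h)
  have hr : ¬ IsOfFinOrder (g ^ n) := by
    intro h
    rw [isOfFinOrder_iff_pow_eq_one] at h
    obtain ⟨m, hm, h⟩ := h
    exact hr1 (hT _ m hm h)
  have hXr : X (zpowers (g ^ n)) := by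
    have h2 : zpowers (g ^ n) ≤ rad X G := by rwa [zpowers_le]
    exact x_equiv hX (subgroupOfEquivOfLe h2)
      (hX.subgroup _ ((zpowers (g ^ n)).subgroupOf (rad X G)) (x_rad hX))
  set H := normalClosure ({g} : Set G) with hH
  set K := normalClosure ({g ^ n} : Set G) with hKd
  have hgH : g ∈ H := subset_normalClosure (Set.mem_singleton g)
  have hKH : K ≤ H := by
    refine normalClosure_le_normal ?_
    rw [Set.singleton_subset_iff]
    exact pow_mem hgH n
  -- `H` is nilpotent
  have hHn : Group.IsNilpotent H := by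
    have hK' : Group.IsNilpotent (K.subgroupOf H) :=
      (Group.isNilpotent_congr (subgroupOfEquivOfLe hKH)).2 hK
    obtain ⟨c, hc⟩ := hK'.nilpotent'
    refine ⟨⟨c, nilp_of_pow c H ?_ (K.subgroupOf H) hc
      ((↑) ⁻¹' (Group.conjugatesOfSet ({g} : Set G))) ?_ ?_⟩⟩
    · intro x y m hm hxy
      exact Subtype.ext (hU _ _ m hm (by simpa using congrArg Subtype.val hxy))
    · exact closure_preimage_eq_top _
    · rintro ⟨t, ht⟩ htc
      rw [Set.mem_preimage, Group.mem_conjugatesOfSet_iff] at htc
      obtain ⟨a, ha, hat⟩ := htc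
      rw [Set.mem_singleton_iff] at ha
      subst ha
      obtain ⟨c', hc'⟩ := isConj_iff.1 hat
      refine ⟨n, hn, ?_⟩
      rw [mem_subgroupOf]
      simp only [SubmonoidClass.coe_pow]
      have hc2 : c' * a * c'⁻¹ = t := hc'
      rw [← hc2, conj_pow]
      exact normalClosure_normal.conj_mem _ (subset_normalClosure (Set.mem_singleton _)) _
  have hXH : X H := x_nilpotent hX hHn (fun h => x_cyclic hX hr hXr h)
  exact le_rad normalClosure_normal hXH hgH

/-- Let `X` be a hereditary radical and `G` a torsion-free locally nilpotent group.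
(1) If `g ^ n ∈ X(G)` for some `n ≥ 1` and the normal closure of `g ^ n` in `G` is nilpotent, then
`g ∈ X(G)`.  (2) If `X(G)` is nilpotent, then `X(G)` is isolated in `G`. -/
theorem result (X : ∀ (G : Type u) [Group G], Prop) (hX : IsHereditaryRadical X)
    (G : Type u) [Group G] (hT : TorsionFree G) (hL : LocallyNilpotent G) :
    (∀ (g : G) (n : ℕ), 0 < n → g ^ n ∈ rad X G →
      Group.IsNilpotent (normalClosure ({g ^ n} : Set G)) → g ∈ rad X G) ∧
    (Group.IsNilpotent (rad X G) → ∀ (g : G) (n : ℕ), 0 < n → g ^ n ∈ rad X G → g ∈ rad X G) := by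
  refine ⟨fun g n hn hg hK => main X hX G hT hL g n hn hg hK, fun hR g n hn hg => ?_⟩
  have hnorm : (rad X G).Normal := by
    refine ⟨fun x hx k => ?_⟩
    have hle : rad X G ≤ (rad X G).comap (MulAut.conj k).toMonoidHom := by
      refine sSup_le fun N hN => ?_
      intro y hy
      rw [Subgroup.mem_comap]
      exact (le_rad hN.1 hN.2) (by simpa using hN.1.conj_mem y hy k)
    simpa using hle hx
  have hle : normalClosure ({g ^ n} : Set G) ≤ rad X G := by
    refine normalClosure_le_normal ?_
    rwa [Set.singleton_subset_iff]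
  refine main X hX G hT hL g n hn hg ?_
  exact (Group.isNilpotent_congr (subgroupOfEquivOfLe hle)).1 inferInstance

end Pool.Agent.Results.MP_f46629_al.NilpotentClosures
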